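import Pool.Agent.H36.WOT.S1
import Pool.Agent.H49.TRN.CUT

/-!
# WOT: reduction by one point
-/

set_option autoImplicit false

namespace Pool.WOT

open MvPolynomial Pool.FOS Pool.TRN Pool.TRN.CutAux

theorem t_red : REDStmt := by
  classical
  intro m s Z U hUZ hq ⟨P, hP⟩
  choose! q hq1 hq2 hq3 using hq
  have hdis : Disjoint (Z \ U) U := Finset.sdiff_disjoint
  have hun : (Z \ U) ∪ U = Z := Finset.sdiff_union_of_subset hUZ
  obtain ⟨C₁, hC₁, k₁⟩ := key m s P (Z \ U) U hdis hP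
  obtain ⟨M, hMd⟩ : ∃ M : ℕ, M = (Z.sup fun a => a.1) + 1 := ⟨_, rfl⟩
  obtain ⟨B, hBd⟩ : ∃ B : ℕ, B = Z.sup fun a => a.2 := ⟨_, rfl⟩
  have hM : ∀ a ∈ Z, a.1 < M := fun a ha => by
    rw [hMd]
    exact Nat.lt_succ_of_le (Finset.le_sup (f := fun a : ℕ × ℕ => a.1) ha)
  have hB : ∀ a ∈ Z, a.2 ≤ B := fun a ha => by
    rw [hBd]
    exact Finset.le_sup (f := fun a : ℕ × ℕ => a.2) ha
  obtain ⟨K, hKd⟩ : ∃ K : ℝ, K = ∑ u ∈ U, ∑ a ∈ Z, ‖ev a (q u)‖ := ⟨_, rfl⟩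
  have hK0 : 0 ≤ K := by
    rw [hKd]
    exact Finset.sum_nonneg fun u _ => Finset.sum_nonneg fun a _ => norm_nonneg _
  have hK : ∀ u ∈ U, ∀ a ∈ Z, ‖ev a (q u)‖ ≤ K := by
    intro u hu a ha
    rw [hKd]
    exact le_trans (Finset.single_le_sum (f := fun a => ‖ev a (q u)‖)
      (fun a _ => norm_nonneg _) ha)
      (Finset.single_le_sum (f := fun u => ∑ a ∈ Z, ‖ev a (q u)‖)
        (fun u _ => Finset.sum_nonneg fun a _ => norm_nonneg _) hu)
  obtain ⟨n₁, hn1d⟩ : ∃ n₁ : ℝ, n₁ = (Z \ U).card := ⟨_, rfl⟩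
  obtain ⟨n₂, hn2d⟩ : ∃ n₂ : ℝ, n₂ = U.card := ⟨_, rfl⟩
  have hn₁ : 0 ≤ n₁ := by rw [hn1d]; exact Nat.cast_nonneg _
  have hn₂ : 0 ≤ n₂ := by rw [hn2d]; exact Nat.cast_nonneg _
  obtain ⟨t, htd⟩ : ∃ t : ℝ, t = n₁ * C₁ * (n₂ * K) + 1 := ⟨_, rfl⟩
  have ht1 : 1 ≤ t := by
    have : 0 ≤ n₁ * C₁ * (n₂ * K) := by positivity
    rw [htd]; linarith
  have ht0 : 0 < t := by linarith
  have htC : (t : ℂ) ≠ 0 := by exact_mod_cast ht0.ne'
  refine ⟨Fin.snoc P ((t : ℂ), ((t : ℂ) ^ M)⁻¹), ?_⟩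
  intro c hc
  have h1 : ∀ (i : Fin s) (p : MvPolynomial (Fin 2) ℂ), p.totalDegree < m →
      ∑ a ∈ (Z \ U) ∪ U, c a * ev a p * ((P i).1 ^ a.1 * (P i).2 ^ a.2) = 0 := by
    intro i p hp
    have := hc i.castSucc p hp
    rw [hun]
    simpa only [Fin.snoc_castSucc] using this
  obtain ⟨N₁, hN1d⟩ : ∃ N₁ : ℝ, N₁ = ∑ a ∈ Z \ U, ‖c a‖ := ⟨_, rfl⟩
  obtain ⟨N₂, hN2d⟩ : ∃ N₂ : ℝ, N₂ = ∑ a ∈ U, ‖c a‖ := ⟨_, rfl⟩
  have hN₁ : 0 ≤ N₁ := by rw [hN1d]; exact Finset.sum_nonneg fun a _ => norm_nonneg _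
  have hN₂ : 0 ≤ N₂ := by rw [hN2d]; exact Finset.sum_nonneg fun a _ => norm_nonneg _
  have b1 : ∀ a ∈ Z \ U, ‖c a‖ ≤ N₁ := fun a ha => by
    rw [hN1d]
    exact Finset.single_le_sum (f := fun a => ‖c a‖) (fun a _ => norm_nonneg _) ha
  have b2 : ∀ a ∈ U, ‖c a‖ ≤ N₂ := fun a ha => by
    rw [hN2d]
    exact Finset.single_le_sum (f := fun a => ‖c a‖) (fun a _ => norm_nonneg _) ha
  have g1 : ∀ a ∈ Z \ U, ‖c a‖ ≤ C₁ * N₂ := k₁ c h1 N₂ hN₂ b2
  -- the condition at the new point, multiplied by `t ^ (M * B)`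
  have h2 : ∀ u ∈ U, ∑ a ∈ Z, c a * ev a (q u) * (t : ℂ) ^ (a.1 + M * (B - a.2)) = 0 := by
    intro u hu
    have h3 := hc (Fin.last s) (q u) (hq1 u hu)
    simp only [Fin.snoc_last] at h3
    have h4 : ∑ a ∈ Z, c a * ev a (q u) * (t : ℂ) ^ (a.1 + M * (B - a.2)) =
        (t : ℂ) ^ (M * B) *
          ∑ a ∈ Z, c a * ev a (q u) * ((t : ℂ) ^ a.1 * (((t : ℂ) ^ M)⁻¹) ^ a.2) := by
      rw [Finset.mul_sum]
      refine Finset.sum_congr rfl fun a ha => ?_
      have h5 : (t : ℂ) ^ (M * B) = (t : ℂ) ^ (M * (B - a.2)) * ((t : ℂ) ^ M) ^ a.2 := by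
        rw [← pow_mul, ← pow_add, ← Nat.mul_add, Nat.sub_add_cancel (hB a ha)]
      have h6 : ((t : ℂ) ^ M) ^ a.2 * (((t : ℂ) ^ M)⁻¹) ^ a.2 = 1 := by
        rw [← mul_pow, mul_inv_cancel₀ (pow_ne_zero _ htC), one_pow]
      rw [h5, pow_add]
      calc c a * ev a (q u) * ((t : ℂ) ^ a.1 * (t : ℂ) ^ (M * (B - a.2)))
          = (t : ℂ) ^ (M * (B - a.2)) * (((t : ℂ) ^ M) ^ a.2 * (((t : ℂ) ^ M)⁻¹) ^ a.2) *
              (c a * ev a (q u) * (t : ℂ) ^ a.1) := by rw [h6]; ring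
        _ = _ := by ring
    rw [h4, h3, mul_zero]
  have hnt : ‖(t : ℂ)‖ = t := by
    rw [Complex.norm_real, Real.norm_of_nonneg ht0.le]
  have g3 : ∀ u ∈ U, ‖c u‖ * t ≤ K * N₁ := by
    intro u hu
    have huZ : u ∈ Z := hUZ hu
    have h3 := h2 u hu
    rw [← Finset.add_sum_erase Z _ huZ, hq2 u hu, mul_one] at h3
    have h4 : c u * (t : ℂ) ^ (u.1 + M * (B - u.2)) =
        - ∑ a ∈ Z.erase u, c a * ev a (q u) * (t : ℂ) ^ (a.1 + M * (B - a.2)) :=
      eq_neg_of_add_eq_zero_left h3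
    have h5 : ‖c u‖ * t ^ (u.1 + M * (B - u.2)) * t ≤
        K * N₁ * t ^ (u.1 + M * (B - u.2)) := by
      have e1 : ‖c u‖ * t ^ (u.1 + M * (B - u.2)) =
          ‖∑ a ∈ Z.erase u, c a * ev a (q u) * (t : ℂ) ^ (a.1 + M * (B - a.2))‖ := by
        have e0 := congrArg norm h4
        rw [norm_neg, norm_mul, norm_pow, hnt] at e0
        exact e0
      have e2 : ∀ a ∈ Z.erase u,
          ‖c a * ev a (q u) * (t : ℂ) ^ (a.1 + M * (B - a.2))‖ * t ≤
            (if a ∈ Z \ U then ‖c a‖ else 0) * (K * t ^ (u.1 + M * (B - u.2))) := by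
        intro a ha
        rw [Finset.mem_erase] at ha
        obtain ⟨hau, haZ⟩ := ha
        by_cases hv : a ∈ U ∨ a.2 < u.2 ∨ (a.2 = u.2 ∧ u.1 < a.1)
        · rw [hq3 u hu a haZ hau hv, mul_zero, zero_mul, norm_zero, zero_mul]
          have : (0 : ℝ) ≤ if a ∈ Z \ U then ‖c a‖ else 0 := by
            split_ifs
            · exact norm_nonneg _
            · exact le_refl _
          positivity
        · push Not at hv
          obtain ⟨haU, hv1, hv2⟩ := hv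
          have haZU : a ∈ Z \ U := Finset.mem_sdiff.2 ⟨haZ, haU⟩
          rw [if_pos haZU, norm_mul, norm_mul, norm_pow, hnt]
          have hw : a.1 + M * (B - a.2) + 1 ≤ u.1 + M * (B - u.2) := by
            rcases Nat.lt_or_ge u.2 a.2 with hlt | hge
            · have l1 : B - u.2 = (B - a.2) + (a.2 - u.2 - 1) + 1 := by
                have := hB a haZ
                omega
              have l2 := hM a haZ
              rw [l1]
              have l3 : M * (B - a.2 + (a.2 - u.2 - 1) + 1) =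
                  M * (B - a.2) + M * (a.2 - u.2 - 1) + M := by ring
              rw [l3]
              have l4 : 0 ≤ M * (a.2 - u.2 - 1) := Nat.zero_le _
              omega
            · have l1 : a.2 = u.2 := le_antisymm hge hv1
              have l2 : a.1 ≤ u.1 := hv2 l1
              have l3 : a.1 ≠ u.1 := fun h => hau (Prod.ext h l1)
              rw [l1]
              omega
          have e3 : t ^ (a.1 + M * (B - a.2)) * t ≤ t ^ (u.1 + M * (B - u.2)) := by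
            rw [← pow_succ]
            exact pow_le_pow_right₀ ht1 hw
          calc ‖c a‖ * ‖ev a (q u)‖ * t ^ (a.1 + M * (B - a.2)) * t
              = ‖c a‖ * (‖ev a (q u)‖ * (t ^ (a.1 + M * (B - a.2)) * t)) := by ring
            _ ≤ ‖c a‖ * (K * t ^ (u.1 + M * (B - u.2))) := by
                refine mul_le_mul_of_nonneg_left ?_ (norm_nonneg _)
                exact mul_le_mul (hK u hu a haZ) e3 (by positivity) hK0
      have e4 : (∑ a ∈ Z.erase u, if a ∈ Z \ U then ‖c a‖ else 0) ≤ N₁ := by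
        rw [hN1d]
        calc (∑ a ∈ Z.erase u, if a ∈ Z \ U then ‖c a‖ else 0)
            ≤ ∑ a ∈ Z, if a ∈ Z \ U then ‖c a‖ else 0 := by
              refine Finset.sum_le_sum_of_subset_of_nonneg (Finset.erase_subset _ _) ?_
              intro a _ _
              split_ifs
              · exact norm_nonneg _
              · exact le_refl _
          _ = ∑ a ∈ Z \ U, ‖c a‖ := by
              rw [← Finset.sum_filter]
              refine Finset.sum_congr ?_ fun _ _ => rfl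
              ext a
              simp only [Finset.mem_filter, Finset.mem_sdiff]
              tauto
      calc ‖c u‖ * t ^ (u.1 + M * (B - u.2)) * t
          = ‖∑ a ∈ Z.erase u, c a * ev a (q u) * (t : ℂ) ^ (a.1 + M * (B - a.2))‖ * t := by
            rw [e1]
        _ ≤ (∑ a ∈ Z.erase u, ‖c a * ev a (q u) * (t : ℂ) ^ (a.1 + M * (B - a.2))‖) * t :=
            mul_le_mul_of_nonneg_right (norm_sum_le _ _) ht0.le
        _ = ∑ a ∈ Z.erase u, ‖c a * ev a (q u) * (t : ℂ) ^ (a.1 + M * (B - a.2))‖ * t := by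
            rw [Finset.sum_mul]
        _ ≤ ∑ a ∈ Z.erase u,
              (if a ∈ Z \ U then ‖c a‖ else 0) * (K * t ^ (u.1 + M * (B - u.2))) :=
            Finset.sum_le_sum e2
        _ = (∑ a ∈ Z.erase u, if a ∈ Z \ U then ‖c a‖ else 0) *
              (K * t ^ (u.1 + M * (B - u.2))) := by rw [Finset.sum_mul]
        _ ≤ N₁ * (K * t ^ (u.1 + M * (B - u.2))) :=
            mul_le_mul_of_nonneg_right e4 (by positivity)
        _ = K * N₁ * t ^ (u.1 + M * (B - u.2)) := by ring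
    have h6 : (‖c u‖ * t) * t ^ (u.1 + M * (B - u.2)) ≤
        (K * N₁) * t ^ (u.1 + M * (B - u.2)) := by
      calc (‖c u‖ * t) * t ^ (u.1 + M * (B - u.2))
          = ‖c u‖ * t ^ (u.1 + M * (B - u.2)) * t := by ring
        _ ≤ _ := h5
    exact le_of_mul_le_mul_right h6 (by positivity)
  have s1 : N₁ ≤ n₁ * (C₁ * N₂) := by
    have := Finset.sum_le_sum g1
    rw [Finset.sum_const, nsmul_eq_mul, ← hN1d, ← hn1d] at this
    exact this
  have s2 : N₂ * t ≤ n₂ * (K * N₁) := by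
    have h3 : N₂ * t = ∑ b ∈ U, ‖c b‖ * t := by rw [hN2d, Finset.sum_mul]
    have := Finset.sum_le_sum g3
    rw [Finset.sum_const, nsmul_eq_mul, ← h3, ← hn2d] at this
    exact this
  have s3 : N₂ = 0 := by
    have h3 : N₂ * t ≤ (n₁ * C₁ * (n₂ * K)) * N₂ := by
      calc N₂ * t ≤ n₂ * (K * N₁) := s2
        _ ≤ n₂ * (K * (n₁ * (C₁ * N₂))) := by gcongr
        _ = (n₁ * C₁ * (n₂ * K)) * N₂ := by ring
    have h4 : N₂ * t = (n₁ * C₁ * (n₂ * K)) * N₂ + N₂ := by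
      rw [htd]; ring
    linarith
  have s4 : N₁ = 0 := by
    have : N₁ ≤ 0 := by rw [s3] at s1; simpa using s1
    linarith
  intro a ha
  have : ‖c a‖ ≤ 0 := by
    by_cases haU : a ∈ U
    · exact (b2 a haU).trans s3.le
    · exact (b1 a (Finset.mem_sdiff.2 ⟨ha, haU⟩)).trans s4.le
  exact norm_le_zero_iff.1 this

end Pool.WOT
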